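import Pool.Agent.Q127.MS.Pos
import Pool.Agent.Q127.SR.Lift
import Pool.Agent.Results.MP_177a0e_gt.NoBigonsInside

/-!
The difference of the ribbon genus and the slice genus is bounded on each class of knots for
concordances without triple points, and for larger classes of singular virtual concordances.

The definitions are in `Pool.Agent.Y468.SR.Defs` (`Pass`, `Code`, `Classical`, `Step`, `Movie`), in
`Pool.Agent.Q127.SR.Defs` (`VSMovie`, `VConc`) and in the starting file `NoBigonsInside` of this
problem (`GMovie`): `GMovie g 0 [(w, 0)] []` says that the knot `w` bounds a ribbon surface of genus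
`g`, and `GMovie g n [(w, 0)] []` that it bounds a surface of genus `g` with `n` local maxima of the
distance from the centre of the 4-ball.
-/

namespace Pool.Agent.Results.MP_177a0e_gt.BoundedGap

open Pool.Agent.Y468.SR Pool.Agent.Q127.MS Pool.Agent.Q127.SR
open Pool.Agent.Results.MP_177a0e_gt.NoBigonsInside

theorem GMovie.comp {g n g' n' : ℕ} {A B E : Code} (h : GMovie g n A B) (h' : GMovie g' n' B E) :
    GMovie (g + g') (n + n') A E := by
  induction h with
  | refl D h => simpa using h'
  | step h hs _ ih => exact (ih h').step h hs
  | @birth g n D E h b hb _ ih =>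
    have := GMovie.birth h b hb (ih h')
    rwa [show n + n' + 1 = n + 1 + n' by omega] at this
  | @handle g n R E x y b h _ ih =>
    have := GMovie.handle x y b h (ih h')
    rwa [show g + g' + 1 = g + 1 + g' by omega] at this

theorem GMovie.append {g n : ℕ} {A B E : Code} (h : GMovie g n A B) (h' : Movie true false B E)
    (hE : Classical E) : GMovie g n A E := by
  simpa using GMovie.comp h (GMovie.of_movie h' (.refl E hE))

theorem mrefl (D : Code) : Movie true false D D := Relation.ReflTransGen.refl

/-- a monotone simplification run backwards, the deaths becoming births -/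
theorem back {s : ℕ} {D E : Code} (h : Mono s D E) (hD : Classical D) (hE : E ≠ []) :
    ∃ d, d + E.length = D.length + s ∧ GMovie 0 d (zero E) (zero D) := by
  induction h with
  | refl D => exact ⟨0, by simp, .refl _ (classical_zero hD)⟩
  | perm h _ ih =>
    have h1 := Pool.Agent.Y468.SR.classical_perm h hD
    obtain ⟨d, e, hm⟩ := ih h1 hE
    refine ⟨d, by rw [e, h.length_eq], GMovie.append hm ?_ (classical_zero hD)⟩
    exact Movie.head (classical_zero h1) (classical_zero hD) (.perm _ _ (h.symm.map _)) (mrefl _)
  | rotate x y b R _ ih =>
    have h1 : Classical ((y ++ x, b) :: R) := classical_rotate hD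
    obtain ⟨d, e, hm⟩ := ih h1 hE
    refine ⟨d, by simpa using e, GMovie.append hm ?_ (classical_zero hD)⟩
    exact Movie.head (classical_zero h1) (classical_zero hD) (.rotate y x 0 (zero R)) (mrefl _)
  | @rename k D E f hf h _ ih =>
    obtain ⟨d, e, hm⟩ := ih h hE
    refine ⟨d, by simpa [renamed] using e, GMovie.append hm ?_ (classical_zero hD)⟩
    obtain ⟨g, hg, hg'⟩ := renamed_renamed_inv hf
    have : Step true false (zero (renamed f D)) (renamed g (zero (renamed f D))) := by
      refine Step.rename g _ fun p hp q hq h => ?_
      rw [passes_zero] at hp hq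
      obtain ⟨p', hp', rfl⟩ := mem_renamed.1 hp
      obtain ⟨q', hq', rfl⟩ := mem_renamed.1 hq
      simp only [hg' p' hp', hg' q' hq'] at h
      simp only [h]
    have e : renamed g (zero (renamed f D)) = zero (renamed g (renamed f D)) := by
      simp [renamed, zero]
    rw [e, hg] at this
    exact Movie.head (classical_zero h) (classical_zero hD) this (mrefl _)
  | @death k E b R hb hm' ih =>
    have h1 := classical_drop hD
    obtain ⟨d, e, hm⟩ := ih h1 hE
    have hR : R ≠ [] := fun h => hE (hm'.nil h)
    refine ⟨d + 1, by simp only [List.length_cons]; omega, ?_⟩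
    obtain ⟨C, hC⟩ := List.exists_mem_of_ne_nil _ hR
    have := GMovie.birth (classical_zero h1) 0
      ⟨(C.1, 0), List.mem_map_of_mem (f := fun C => (C.1, 0)) hC, rfl⟩
      (GMovie.refl (zero (([], b) :: R)) (classical_zero hD))
    simpa using GMovie.comp hm this
  | @one k D₀ D' E A B p h hE' hE'' _ ih =>
    obtain ⟨d, e, hm⟩ := ih h hE
    have hr : Reid true (enc D₀) (enc D') := by
      rw [hE', hE'']
      exact .one A B p
    have hl := congrArg List.length (labels_reid hr)
    rw [List.length_map, List.length_map] at hl
    refine ⟨d, by rw [e, hl], GMovie.append hm ?_ (classical_zero hD)⟩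
    exact Movie.head (classical_zero h) (classical_zero hD)
      (.reidInv _ _ (by rw [enc_zero, enc_zero]; exact reid_zero hr)) (mrefl _)
  | @cut k D' E x y z b b' b₁ b₂ R A B C p q hb' hb h h' hpq ho hs hE' hE'' _ ih =>
    obtain ⟨d, e, hm⟩ := ih h' hE
    have hr : Reid true (enc ((x ++ z, b₁) :: (y, b₂) :: R)) (enc D') := by
      rw [hE', hE'']
      exact .twoSame A B C p q hpq ho hs
    have hl := congrArg List.length (labels_reid hr)
    rw [List.length_map, List.length_map] at hl
    simp only [List.length_cons] at hl
    refine ⟨d, by simp only [List.length_cons]; omega, GMovie.append hm ?_ (classical_zero hD)⟩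
    have c1 : Classical ((x ++ z, 0) :: (y, 0) :: zero R) := classical_zero h
    have c2 : Classical ((z ++ x, 0) :: (y, 0) :: zero R) := classical_rotate c1
    have c3 : Classical ((x ++ y ++ z, 0) :: zero R) := classical_zero hD
    have c4 : Classical ((z ++ (x ++ y), 0) :: zero R) := classical_rotate c3
    have s1 : Step true false (zero D') ((x ++ z, 0) :: (y, 0) :: zero R) :=
      .reidInv _ (zero ((x ++ z, b₁) :: (y, b₂) :: R))
        (by rw [enc_zero, enc_zero]; exact reid_zero hr)
    have s2 : Step true false ((x ++ z, 0) :: (y, 0) :: zero R)
        ((z ++ x, 0) :: (y, 0) :: zero R) := .rotate x z 0 _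
    have s3 : Step true false ((z ++ x, 0) :: (y, 0) :: zero R)
        ((z ++ (x ++ y), 0) :: zero R) := by
      have := Step.merge (r3 := true) (births := false) (z ++ x) y 0 (zero R)
      simpa using this
    have s4 : Step true false ((z ++ (x ++ y), 0) :: zero R) ((x ++ y ++ z, 0) :: zero R) :=
      .rotate z (x ++ y) 0 _
    exact Movie.head (classical_zero h') c1 s1 (Movie.head c1 c2 s2 (Movie.head c2 c4 s3
      (Movie.head c4 c3 s4 (mrefl _))))

/-- Let `k` be a diagram with `c` crossings (`c` is half the length of `k`) of a classical knot. There
is a number `s ≤ c / 2` with the following property. Let `K` be a knot for which there is a classical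
knot `k'` below `K` (a ribbon concordance from `k'` to `K`) which is joined to `k` by a chain of
classical knots, any two consecutive ones being the ends of a singular concordance, given by a movie
of virtual links (in any direction), such that for some set of double curves of its projection,
containing all double curves meeting the two ends, the concordance crosses itself only in points of
double curves not in this set, and at most one of the three double curves (branches) through each
triple point belongs to this set. If `k` bounds a surface of genus `g` with `n` local maxima, then `K`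
bounds a surface of genus `g` with `n + s` local maxima, and a ribbon surface of genus
`g + n + s`.

So the ribbon genus of `K` is at most the ribbon genus of `k` plus `c / 2`, while the slice genera of
`K` and `k` are equal: the difference of ribbon genus and slice genus is bounded on the set of all
these knots `K`. -/
theorem result (k : List Pass) (hk : Classical [(k, 0)]) :
    ∃ s : ℕ, 4 * s ≤ k.length ∧
      ∀ K k' : List Pass, Relation.EqvGen VConc k k' → Movie true false [(K, 0)] [(k', 0)] →
        ∀ g n : ℕ, GMovie g n [(k, 0)] [] →
          GMovie g (n + s) [(K, 0)] [] ∧ GMovie (g + n + s) 0 [(K, 0)] [] := by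
  obtain ⟨j, hj, h⟩ := exists_simplest hk
  obtain ⟨s, hs⟩ := h k (.refl _)
  have hl := hs.length_le
  simp only [passes_cons, passes_nil, List.append_nil] at hl
  obtain ⟨d, e, hb⟩ := back hs hk (by simp)
  simp only [List.length_cons, List.length_nil, zero_add] at e
  obtain rfl : d = s := by omega
  refine ⟨d, by omega, fun K k' h₁ h₂ g n hg => ?_⟩
  have h3 := (Pool.Agent.Y874.TP2.V127.movie_of_veqvGen h₁).1
  have hk' := classical_of_movie h3 hk
  have h4 : Joined k k' := ⟨hk, hk', virt_of_movie h3⟩
  obtain ⟨t, ht⟩ := h k' (.rel _ _ h4)
  have h5 : Movie true false [(K, 0)] [(j, 0)] := h₂.trans (movie_mono (ht.movie hk').1)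
  have h6 : GMovie (0 + g) (d + n) [(j, 0)] [] := GMovie.comp hb hg
  rw [Nat.zero_add, Nat.add_comm] at h6
  have h7 := GMovie.of_movie h5 h6
  refine ⟨h7, ?_⟩
  have := h7.trade
  rwa [← Nat.add_assoc] at this

end Pool.Agent.Results.MP_177a0e_gt.BoundedGap
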