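import Pool.Agent.Q127.MS.Sum2
import Pool.Agent.Results.MP_177a0e_gt.BoundedGap

/-!
The ribbon genus and connected sums: knots `K₁`, `K₂`, `R` such that `K₁ # -K₂ # R` and `R` bound
singular discs of virtual links.

The definitions are in `Pool.Agent.Y468.SR.Defs` (`Pass`, `Code`, `Classical`, `WellFormed`, `Step`,
`Movie`), in `Pool.Agent.Q127.SR.Defs` (`VSMovie`), in `Pool.Agent.Q127.MS.Sum2` (`conSum`) and in the
starting file `NoBigonsInside` of this problem (`GMovie`): `GMovie g 0 [(w, 0)] []` says that the knot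
`w` bounds a ribbon surface of genus `g`, and `GMovie g n [(w, 0)] []` that it bounds a surface of
genus `g` with `n` local maxima of the distance from the centre of the 4-ball.
-/

namespace Pool.Agent.Results.MP_177a0e_gt.ConnectedSums

open Pool.Agent.Y468.SR Pool.Agent.Q127.MS
open Pool.Agent.Y874.TP (colour)
open Pool.Agent.Y874.TP2.T4 (dbl_wmovie)
open Pool.Agent.Q127.SR (VSMovie)
open Pool.Agent.Results.MP_177a0e_gt.NoBigonsInside
open Pool.Agent.Results.MP_177a0e_gt.BoundedGap (back GMovie.comp)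

/-- The knot with the Gauss code `w` bounds a singular disc by a movie of virtual links such that, for
some set of double curves (those whose colour is not in `Z`) containing all those meeting the knot,
the disc crosses itself only on the other double curves, and at most one branch of these double curves
passes through each triple point. -/
def Disc (w : List Pass) : Prop :=
  ∃ Z : ℕ → Prop, (∀ p ∈ w, ¬Z (colour p.crossing)) ∧ VSMovie Z [(w, 0)] []

theorem Disc.inv {w : List Pass} (h : Disc w) : Pool.Agent.Y468.SR.Inv [(w, 0)] := by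
  obtain ⟨Z, hZ, h⟩ := h
  have h3 := Pool.Agent.Y874.TP2.V127.wmovie_vdel h
  rw [Pool.Agent.Y874.TP2.T4.del_eq (by simpa using hZ)] at h3
  exact inv_of_virt h3 inv_nil

/-- cancellation of a summand, the first summand being any word -/
theorem cancel {k r : List Pass} (wk : WF k) (hr : Classical [(r, 0)])
    (hd : ∀ p ∈ k, ∀ q ∈ r, p.crossing ≠ q.crossing) (h1 : Pool.Agent.Y468.SR.Inv [(r, 0)])
    (h2 : Pool.Agent.Y468.SR.Inv [(k ++ r, 0)]) : Pool.Agent.Y468.SR.Inv [(k, 0)] := by
  have wk' : WF (k.map (ren fun n => 2 * n + 1)) := wk.ren fun p _ q _ h => by omega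
  have i1 := inv_split wk (wf1.1 hr.1) hd h2
  obtain ⟨κ, ⟨C, hC, hκ⟩, i2⟩ := dbl_wmovie (unknot_to hr h1) wk' (odd_ren k)
    ⟨0, ⟨(r, 0), by simp, rfl⟩, i1⟩
  rw [List.mem_singleton] at hC
  subst hC
  simp only at hκ
  subst hκ
  have e0 : dbl [(([] : List Pass), 0)] ++ [(k.map (ren fun n => 2 * n + 1), 0)] =
      [([], 0), (k.map (ren fun n => 2 * n + 1), 0)] := rfl
  rw [e0] at i2
  have s1 : Step false true [(k.map (ren fun n => 2 * n + 1), 0)]
      [([], 0), (k.map (ren fun n => 2 * n + 1), 0)] :=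
    Step.birth rfl 0 _ ⟨_, List.mem_singleton.2 rfl, rfl⟩
  have i3 := step_inv (wf1.2 wk') (wf2.2 (by simpa using wk')) s1 i2
  have s2 : Step false false [(k, 0)] [(k.map (ren fun n => 2 * n + 1), 0)] :=
    Step.rename (fun n => 2 * n + 1) [(k, 0)] fun p _ q _ h => by omega
  exact step_inv (wf1.2 wk) (wf1.2 wk') s2 i3

theorem wf_conSum {k₁ k₂ : List Pass} (h₁ : WF k₁) (h₂ : WF k₂) : WF (conSum k₁ k₂) := by
  rw [conSum_eq]
  have w1 : WF (k₁.map (ren fun n => 2 * n)) := h₁.ren fun p _ q _ h => by omega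
  have w2 : WF (bar (k₂.map (ren fun n => 2 * n + 1))) := (h₂.ren fun p _ q _ h => by omega).bar
  refine w1.append w2 fun p hp q hq h => ?_
  have h1 := even_ren k₁ p hp
  have h2 := odd_ren k₂ (flp q) (mem_bar.1 hq)
  simp only [flp] at h2
  omega

theorem half {k j K : List Pass} {s : ℕ} (hk : Classical [(k, 0)])
    (hs : Mono s [(k, 0)] [(j, 0)]) (hK : Movie true false [(K, 0)] [(j, 0)]) (g n : ℕ)
    (hg : GMovie g n [(k, 0)] []) :
    GMovie g (n + s) [(K, 0)] [] ∧ GMovie (g + n + s) 0 [(K, 0)] [] := by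
  obtain ⟨d, e, hb⟩ := back hs hk (by simp)
  simp only [List.length_cons, List.length_nil, zero_add] at e
  obtain rfl : d = s := by omega
  have h6 : GMovie (0 + g) (d + n) [(j, 0)] [] := GMovie.comp hb hg
  rw [Nat.zero_add, Nat.add_comm] at h6
  have h7 := GMovie.of_movie hK h6
  refine ⟨h7, ?_⟩
  have := h7.trade
  rwa [← Nat.add_assoc] at this

/-- Let `k₁`, `k₂` and `r` be diagrams of classical knots `K₁`, `K₂`, `R` such that `R` and, for some
choice of the base points, the diagram `conSum .. ++ r` of the connected sum `K₁ # -K₂ # R` bound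
singular discs as in `Disc` (`-K₂` is the reversed mirror image). Then there are `s₁ ≤ c₁ / 2` and
`s₂ ≤ c₂ / 2`, where `cᵢ` is the number of crossings of `kᵢ`, such that for all `g`, `n`:

1. if `k₂` bounds a surface of genus `g` with `n` local maxima, then every knot `K ≥ k₁` (there is a
ribbon concordance from `k₁` to `K`) bounds a surface of genus `g` with `n + s₂` local maxima, and a
ribbon surface of genus `g + n + s₂`; and the same with `k₁` and `k₂` exchanged;
2. if all crossings of `k₂` have the same sign, then `s₂ = 0` and there is a ribbon concordance from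
`k₂` to each knot `K ≥ k₁`; and the same with `k₁` and `k₂` exchanged.

So the ribbon genus of `K` is at most the ribbon genus of `k₂` plus `c₂ / 2`, and at most the ribbon
genus of `k₂` if this is a positive or a negative diagram (and then it is equal to the slice genus
of `K` by the theorem of Kronheimer, Mrowka and Rudolph). -/
theorem result (k₁ k₂ r : List Pass) (h₁ : Classical [(k₁, 0)]) (h₂ : Classical [(k₂, 0)])
    (hr : Classical [(r, 0)]) (a b : ℕ)
    (hd : ∀ p ∈ conSum (k₁.rotate a) (k₂.rotate b), ∀ q ∈ r, p.crossing ≠ q.crossing)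
    (hR : Disc r) (hS : Disc (conSum (k₁.rotate a) (k₂.rotate b) ++ r)) :
    ∃ s₁ s₂ : ℕ, 4 * s₁ ≤ k₁.length ∧ 4 * s₂ ≤ k₂.length ∧
      (∀ K : List Pass, Movie true false [(K, 0)] [(k₁, 0)] → ∀ g n : ℕ,
        GMovie g n [(k₂, 0)] [] →
          GMovie g (n + s₂) [(K, 0)] [] ∧ GMovie (g + n + s₂) 0 [(K, 0)] []) ∧
      (∀ K : List Pass, Movie true false [(K, 0)] [(k₂, 0)] → ∀ g n : ℕ,
        GMovie g n [(k₁, 0)] [] →
          GMovie g (n + s₁) [(K, 0)] [] ∧ GMovie (g + n + s₁) 0 [(K, 0)] []) ∧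
      (∀ ε : Bool, (∀ p ∈ k₂, p.isPos = ε) → s₂ = 0 ∧
        ∀ K : List Pass, Movie true false [(K, 0)] [(k₁, 0)] →
          Movie true false [(K, 0)] [(k₂, 0)]) ∧
      ∀ ε : Bool, (∀ p ∈ k₁, p.isPos = ε) → s₁ = 0 ∧
        ∀ K : List Pass, Movie true false [(K, 0)] [(k₂, 0)] →
          Movie true false [(K, 0)] [(k₁, 0)] := by
  have c1 := classical_rotate' a h₁
  have c2 := classical_rotate' b h₂
  have hI := cancel (wf_conSum (wf1.1 c1.1) (wf1.1 c2.1)) hr hd hR.inv hS.inv
  have hJ : Relation.EqvGen Joined k₁ k₂ := by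
    obtain ⟨m, hm⟩ := matching_of_inv hI
    exact (joined_iff h₁ h₂).2 ⟨a, b, m, hm⟩
  obtain ⟨s₁, s₂, j, m1, m2⟩ := common_of_virt h₁ h₂ (joined_both hJ).2.1
  have l1 := m1.length_le
  have l2 := m2.length_le
  simp only [passes_cons, passes_nil, List.append_nil] at l1 l2
  refine ⟨s₁, s₂, by omega, by omega, fun K hK g n hg => ?_, fun K hK g n hg => ?_,
    fun ε hε => ⟨(mono_pos m2 rfl rfl h₂ hε).1, fun K hK => ?_⟩,
    fun ε hε => ⟨(mono_pos m1 rfl rfl h₁ hε).1, fun K hK => ?_⟩⟩
  · exact half h₂ m2 (hK.trans (movie_mono (m1.movie h₁).1)) g n hg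
  · exact half h₁ m1 (hK.trans (movie_mono (m2.movie h₂).1)) g n hg
  · exact hK.trans (movie_mono ((m1.movie h₁).1.trans (mono_pos m2 rfl rfl h₂ hε).2.2))
  · exact hK.trans (movie_mono ((m2.movie h₂).1.trans (mono_pos m1 rfl rfl h₁ hε).2.2))

end Pool.Agent.Results.MP_177a0e_gt.ConnectedSums
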