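import Pool.Agent.Q127.MS.Pos
import Pool.Agent.Q127.SR.Lift
import Pool.Agent.Results.MP_177a0e_gt.NoBigonsInside

/-!
The ribbon genus of knots concordant to positive knots by concordances without triple points, and by
larger classes of singular virtual concordances.

The definitions are in `Pool.Agent.Y468.SR.Defs` (`Pass`, `Code`, `Classical`, `Step`, `Movie`), in
`Pool.Agent.Q127.SR.Defs` (`VSMovie`, `VConc`) and in the starting file `NoBigonsInside` of this
problem (`GMovie`): `GMovie g 0 [(w, 0)] []` says that the knot `w` bounds a ribbon surface of genus
`g`, and `GMovie g n [(w, 0)] []` that it bounds a surface of genus `g` with `n` local maxima of the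
distance from the centre of the 4-ball.
-/

namespace Pool.Agent.Results.MP_177a0e_gt.PositiveKnots

open Pool.Agent.Y468.SR Pool.Agent.Q127.MS Pool.Agent.Q127.SR
open Pool.Agent.Results.MP_177a0e_gt.NoBigonsInside

/-- Let `k` be a diagram of a classical knot all of whose crossings have the same sign (a positive or
a negative knot). Let `K` be a knot for which there is a classical knot `k'` below `K` (a ribbon
concordance from `k'` to `K`) which is joined to `k` by a chain of classical knots, any two
consecutive ones being the ends of a singular concordance, given by a movie of virtual links (in any
direction), such that for some set of double curves of its projection, containing all double curves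
meeting the two ends, the concordance crosses itself only in points of double curves not in this set,
and at most one of the three double curves (branches) through each triple point belongs to this set.

Then there is a ribbon concordance from `k` to `K`, and if `k` bounds a ribbon surface of genus `g`,
so does `K`; the same holds with `n` local maxima.

By the theorem of Kronheimer, Mrowka and Rudolph the ribbon genus of a positive or negative knot `k`
is equal to its slice genus (both are the genus of the Seifert surface of a diagram without
negative, or without positive, crossings), and the slice genus of `K` is that of `k`. So the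
ribbon genus and the slice genus of `K` are equal. -/
theorem result (ε : Bool) (k : List Pass) (hk : Classical [(k, 0)]) (hε : ∀ p ∈ k, p.isPos = ε)
    (K k' : List Pass) (h₁ : Relation.EqvGen VConc k k')
    (h₂ : Movie true false [(K, 0)] [(k', 0)]) :
    Movie true false [(K, 0)] [(k, 0)] ∧
      ∀ g n : ℕ, GMovie g n [(k, 0)] [] → GMovie g n [(K, 0)] [] := by
  have h3 := (Pool.Agent.Y874.TP2.V127.movie_of_veqvGen h₁).1
  have h4 : Joined k k' := ⟨hk, classical_of_movie h3 hk, virt_of_movie h3⟩
  have h5 : Movie true false [(K, 0)] [(k, 0)] :=
    h₂.trans (movie_mono (pos_le hk hε (.rel _ _ h4)))
  exact ⟨h5, fun g n h => GMovie.of_movie h5 h⟩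

end Pool.Agent.Results.MP_177a0e_gt.PositiveKnots
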