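import Pool.Agent.Q127.SR.Lift
import Pool.Agent.Results.MP_177a0e_gt.NoBigonsInside

/-!
Ribbon genus and singular surfaces of virtual links. The movies here go from the link into the
4-ball. `GMovie g n D D'` (see `NoBigonsInside`) is a movie of classical links with `g` handles and
`n` births; `GMovie g 0 [(w, 0)] []` says that the knot `w` bounds a ribbon surface of genus `g`.
-/

namespace Pool.Agent.Results.MP_177a0e_gt.SingularVirtualInside

open Pool.Agent.Y468.SR Pool.Agent.Y874.TP Pool.Agent.Q127.SR
open Pool.Agent.Results.MP_177a0e_gt.NoBigonsInside

/-- Let `[(w, 0)] → D` be a movie of classical links with `g` handles and `n` births starting with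
the knot `w`. Let `D` bound singular surfaces by a movie of virtual links, and let `A` be a set of
double curves of the projection of these surfaces (those with colours outside `Z`) which contains all
double curves meeting `D`. Suppose that the surfaces cross themselves and one another only in points
of double curves not in `A`, that through each triple point there pass none, one or three double
curves (branches) of `A`, and that, counting only the triple points with three of them, no curve of
the preimage of `A` crosses itself, and any two of these curves cross at most once. Suppose moreover
that, if a component is cut by a handle inside `D`, then one of the two new components passes only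
through crossings not in `A`. Then the knot bounds an embedded ribbon surface of genus `g + n`. -/
theorem result (w : List Pass) (g n : ℕ) (Z : ℕ → Prop) (D : Code) (T : List (Sym2 (ℕ × Bool)))
    (h₁ : GMovie g n [(w, 0)] D) (hD : Classical D) (hn : (D.map Prod.snd).Nodup)
    (h₂ : VMovie true Z D T)
    (hZ : ∀ p ∈ passes D, ¬Z (colour p.crossing)) : GMovie (g + n) 0 [(w, 0)] [] := by
  have h3 : Movie true false D [] :=
    Pool.Agent.Y874.TP2.V127.movie_of_vmovie h₂ hD hZ hn
  have h4 : GMovie 0 0 D [] :=
    GMovie.of_movie h3 (.refl [] (classical_empty (by simp [passes])))
  suffices h : ∀ {g n : ℕ} {A B E : Code}, GMovie g n A B → GMovie 0 0 B E → GMovie g n A E from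
    (h h₁ h4).trade
  intro g n A B E h h'
  induction h with
  | refl D h => exact h'
  | step h hs _ ih => exact (ih h').step h hs
  | birth h b hb _ ih => exact GMovie.birth h b hb (ih h')
  | handle x y b h _ ih => exact GMovie.handle x y b h (ih h')

end Pool.Agent.Results.MP_177a0e_gt.SingularVirtualInside
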